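import Mathlib

set_option autoImplicit false

namespace Pool.Agent.Results.MP_1b3940_lc.Q1
open Nat.Partrec Nat.Partrec.Code Filter Primrec

/-- acceptable numbering of the unary computable partial functions -/
def Acceptable (φ : ℕ → ℕ →. ℕ) : Prop :=
  Partrec₂ φ ∧ ∃ g : Code → ℕ, Computable g ∧ ∀ c, φ (g c) = c.eval

def W (φ : ℕ → ℕ →. ℕ) (e : ℕ) : Set ℕ := {x | (φ e x).Dom}

/-- `none` is `#`, `some (x, true)` is `(x,1)`, `some (x, false)` is `(x,0)` -/
abbrev Info := Option (ℕ × Bool)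

def Pos (I : ℕ → Info) : Set ℕ := {x | ∃ n, I n = some (x, true)}
def Neg (I : ℕ → Info) : Set ℕ := {x | ∃ n, I n = some (x, false)}
def seg (I : ℕ → Info) (n : ℕ) : List Info := (List.range n).map I

/-- `M` `NegO^b TxtBc^*`-identifies `L` -/
def Ident (φ : ℕ → ℕ →. ℕ) (b : ℕ) (M : List Info → ℕ) (L : Set ℕ) : Prop :=
  ∃ S : Finset ℕ, (S : Set ℕ) ⊆ Lᶜ ∧ S.card ≤ b ∧ ∀ I : ℕ → Info, Pos I = L → (S : Set ℕ) ⊆ Neg I →
    Neg I ⊆ Lᶜ → ∀ᶠ n in atTop, (symmDiff (W φ (M (seg I n))) L).Finite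

def A (s j y : ℕ) : Prop := (evaln s (Denumerable.ofNat Code j) y).isSome = true
def D (j y : ℕ) : Prop := ((Denumerable.ofNat Code j).eval y).Dom
def vl (a : Info) : ℕ := (a.getD (0, false)).1
def V (A : ℕ → ℕ → Prop) (σ : List Info) (k y : ℕ) : Prop :=
  ∀ j < k, (∀ a ∈ σ, a = some (vl a, true) → A j (vl a)) → A j y
def Tst (A : ℕ → ℕ → Prop) (σ : List Info) (x : ℕ) : Prop :=
  ∃ k < σ.length, (∀ a ∈ σ, a = some (vl a, false) → ¬ V A σ k (vl a)) ∧ V A σ k x

theorem imp {α : Type} [Primcodable α] {p q : α → Prop} (hp : PrimrecPred p) (hq : PrimrecPred q) :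
    PrimrecPred fun a => p a → q a := (hp.not.or hq).of_eq fun _ => imp_iff_not_or.symm

theorem tst_pr : PrimrecPred fun p : (List Info × ℕ) × ℕ => Tst (A (p.2 + p.1.2)) p.1.1 p.1.2 := by
  have a : PrimrecPred fun p : ℕ × ℕ × ℕ => A p.1 p.2.1 p.2.2 := Primrec.eq.comp
    (option_isSome.comp (primrec_evaln.comp (.pair (.pair fst ((Primrec.ofNat Code).comp
      (fst.comp snd))) (snd.comp snd)))) (const true)
  have v : Primrec vl := fst.comp (option_getD.comp Primrec.id (const _))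
  have e : ∀ b, PrimrecPred fun a : Info => a = some (vl a, b) := fun b =>
    Primrec.eq.comp Primrec.id (option_some.comp (v.pair (const b)))
  have h1 : PrimrecRel fun (σ : List Info) (p : ℕ × ℕ) =>
      ∀ a ∈ σ, a = some (vl a, true) → A p.1 p.2 (vl a) := PrimrecRel.forall_mem_list
    (imp ((e true).comp fst) (a.comp (.pair (fst.comp snd) (.pair (snd.comp snd) (v.comp fst)))))
  have h2 : PrimrecRel fun (k : ℕ) (p : ℕ × List Info × ℕ) => V (A p.1) p.2.1 k p.2.2 :=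
    ((PrimrecRel.forall_mem_list (R := fun j (p : ℕ × List Info × ℕ) => (∀ a ∈ p.2.1,
      a = some (vl a, true) → A p.1 j (vl a)) → A p.1 j p.2.2) (imp (h1.comp (fst.comp (snd.comp snd)) (.pair (fst.comp snd) fst))
      (a.comp (.pair (fst.comp snd) (.pair fst (snd.comp (snd.comp snd))))))).comp
      (list_range.comp fst) snd).of_eq (by simp [V])
  have h3 : PrimrecRel fun (τ : List Info) (p : ℕ × List Info × ℕ) =>
      ∀ a ∈ τ, a = some (vl a, false) → ¬ V (A p.1) p.2.1 p.2.2 (vl a) :=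
    PrimrecRel.forall_mem_list (imp ((e false).comp fst) (h2.comp (snd.comp (snd.comp snd))
      (.pair (fst.comp snd) (.pair (fst.comp (snd.comp snd)) (v.comp fst)))).not)
  have h4 : PrimrecRel fun (n : ℕ) (p : ℕ × List Info × ℕ) => ∃ k < n,
      (∀ a ∈ p.2.1, a = some (vl a, false) → ¬ V (A p.1) p.2.1 k (vl a)) ∧
        V (A p.1) p.2.1 k p.2.2 :=
    ((PrimrecRel.exists_mem_list (R := fun k (p : ℕ × List Info × ℕ) => (∀ a ∈ p.2.1,
      a = some (vl a, false) → ¬ V (A p.1) p.2.1 k (vl a)) ∧ V (A p.1) p.2.1 k p.2.2) (PrimrecPred.and (h3.comp (fst.comp (snd.comp snd))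
      (.pair (fst.comp snd) (.pair (fst.comp (snd.comp snd)) fst))) h2)).comp
      (list_range.comp fst) snd).of_eq (by simp)
  exact h4.comp (list_length.comp (fst.comp fst))
    (.pair (nat_add.comp snd (snd.comp fst)) (.pair (fst.comp fst) (snd.comp fst)))

theorem A_D {s j y : ℕ} (h : A s j y) : D j y := by
  obtain ⟨z, hz⟩ := Option.isSome_iff_exists.1 h
  exact Part.dom_iff_mem.2 ⟨z, evaln_sound hz⟩

theorem ev_A (j y : ℕ) : ∀ᶠ s in atTop, A s j y ↔ D j y := by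
  by_cases h : D j y
  · obtain ⟨z, hz⟩ := Part.dom_iff_mem.1 h
    obtain ⟨k, hk⟩ := evaln_complete.1 hz
    exact (eventually_ge_atTop k).mono fun s hs =>
      iff_of_true (Option.isSome_iff_exists.2 ⟨z, evaln_mono hs hk⟩) h
  · exact .of_forall fun s => iff_of_false (mt A_D h) h

theorem lim (σ : List Info) : (symmDiff {x | ∃ t, Tst (A (t + x)) σ x} {x | Tst D σ x}).Finite := by
  have k : ∀ l : List ℕ, ∀ᶠ s in atTop, ∀ j < σ.length, ∀ y ∈ l, (A s j y ↔ D j y) := fun l =>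
    (eventually_all_finite (Set.finite_lt_nat _)).2 fun j _ =>
      (eventually_all_finite l.finite_toSet).2 fun y _ => ev_A j y
  have k1 : ∀ s, (∀ j < σ.length, ∀ y ∈ σ.map vl, (A s j y ↔ D j y)) → ∀ k < σ.length, ∀ x,
      (V (A s) σ k x → V D σ k x) ∧ ((∀ j < σ.length, (A s j x ↔ D j x)) → V D σ k x →
        V (A s) σ k x) := fun s h k hk x =>
    ⟨fun v j hj b => A_D (v j hj fun a ha e =>
      (h j (hj.trans hk) _ (List.mem_map_of_mem ha)).2 (b a ha e)),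
    fun h' v j hj b => (h' j (hj.trans hk)).2 (v j hj fun a ha e => A_D (b a ha e))⟩
  obtain ⟨s0, h0⟩ := eventually_atTop.1 (k (σ.map vl))
  refine (Set.finite_lt_nat s0).subset fun x hx => (not_le.1 fun l => ?_ : x < s0)
  refine (Set.mem_symmDiff.1 hx).elim (fun ⟨⟨t, k, hk, h1, h2⟩, h⟩ => h ?_)
    fun ⟨⟨j, hj, h1, h2⟩, h⟩ => h ?_
  · have := h0 (t + x) (by omega)
    exact ⟨k, hk, fun a ha e v => h1 a ha e ((k1 _ this k hk _).2
      (fun j hj => this j hj _ (List.mem_map_of_mem ha)) v), (k1 _ this k hk x).1 h2⟩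
  · obtain ⟨s, hs⟩ := eventually_atTop.1 (k [x])
    have := h0 (s + x) (by omega)
    exact ⟨s, j, hj, fun a ha e v => h1 a ha e ((k1 _ this j hj _).1 v), (k1 _ this j hj x).2
      (fun j hj => hs _ (by omega) j hj x (by simp)) h2⟩

theorem result (φ : ℕ → ℕ →. ℕ) (hφ : Acceptable φ) (i : ℕ) (hi : 1 ≤ i) :
    ∃ M : List Info → ℕ, Computable M ∧ ∀ e, Ident φ i M (W φ e) := by
  classical
  obtain ⟨hφ, g, hg, hg'⟩ := hφ
  have p1 : Partrec fun p : List Info × ℕ =>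
      Nat.rfind fun t => Part.some (decide (Tst (A (t + p.2)) p.1 p.2)) :=
    Partrec.rfind tst_pr.decide.to_comp.partrec.to₂
  have p2 : Partrec fun n : ℕ => Nat.rfind fun t => Part.some (decide (Tst (A (t + n.unpair.2))
      ((Encodable.decode n.unpair.1).getD []) n.unpair.2)) :=
    p1.comp (g := fun n : ℕ => (((Encodable.decode n.unpair.1).getD [] : List Info), n.unpair.2))
      (Primrec.to_comp (.pair (option_getD.comp (Primrec.decode.comp (fst.comp unpair)) (const _))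
        (snd.comp unpair)))
  obtain ⟨c, hc⟩ := exists_code.1 (Partrec.nat_iff.1 p2)
  refine ⟨fun σ => g (c.curry (Encodable.encode σ)), hg.comp
    (primrec₂_curry.comp (const c) Primrec.encode).to_comp, fun e => ?_⟩
  have hW : ∀ σ : List Info, W φ (g (c.curry (Encodable.encode σ))) =
      {x | ∃ t, Tst (A (t + x)) σ x} := fun σ => by
    ext x; simp [W, hg', hc, Nat.rfind_dom]
  obtain ⟨d, hd⟩ := exists_code.1 (Partrec.nat_iff.1 (hφ.comp (Computable.const e) Computable.id))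
  obtain ⟨L, hL⟩ : ∃ L, L = W φ e := ⟨_, rfl⟩
  obtain ⟨j0, h0⟩ : ∃ j, ∀ y, D j y ↔ y ∈ L := ⟨Encodable.encode d, by simp [D, hd, hL, W]⟩
  rw [← hL]
  let U : ℕ → Set ℕ := fun k => {y | ∀ j < k, (∀ z ∈ L, D j z) → D j y}
  obtain ⟨S, s1, s2, s3⟩ : ∃ S : Finset ℕ, (S : Set ℕ) ⊆ Lᶜ ∧ S.card ≤ i ∧
      ∀ k, U k ⊆ L ∨ ∃ y ∈ S, y ∈ U k := by
    have ex : ∃ k, U k ⊆ L := ⟨j0 + 1, fun y hy => (h0 y).1 (hy j0 (by omega) fun z => (h0 z).2)⟩
    rcases e : Nat.find ex with _ | k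
    · exact ⟨∅, by simp, by simp, fun k => .inl fun y hy => (e ▸ Nat.find_spec ex) (by simp [U])⟩
    · obtain ⟨y, y1, y2⟩ := Set.not_subset.1 (Nat.find_min ex (m := k) (by omega))
      refine ⟨{y}, by simpa using y2, by simpa using hi, fun k' => (le_or_gt k' k).symm.imp
        (fun h z hz => (e ▸ Nat.find_spec ex) fun j hj => hz j (by omega))
        fun h => ⟨y, by simp, fun j hj => y1 j (by omega)⟩⟩
  refine ⟨S, s1, s2, fun I i1 i2 i3 => ?_⟩
  have m : ∀ n a, a ∈ seg I n ↔ ∃ t < n, I t = a := by simp [seg]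
  have e1 : ∀ᶠ n in atTop, ∀ y ∈ S, some (y, false) ∈ seg I n :=
    (eventually_all_finset S).2 fun y hy => by
      obtain ⟨t, ht⟩ := i2 hy
      exact (eventually_gt_atTop t).mono fun n hn => (m _ _).2 ⟨t, hn, ht⟩
  have e2 : ∀ᶠ n in atTop, ∀ j < j0 + 1, ((∀ a ∈ seg I n, a = some (vl a, true) → D j (vl a)) ↔
      ∀ z ∈ L, D j z) := (eventually_all_finite (Set.finite_lt_nat _)).2 fun j _ => by
    have b : ∀ n, (∀ z ∈ L, D j z) → ∀ a ∈ seg I n, a = some (vl a, true) → D j (vl a) :=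
      fun n h a ha e => by
        obtain ⟨t, -, ht⟩ := (m _ _).1 ha
        exact h _ (i1 ▸ ⟨t, ht.trans e⟩)
    by_cases h : ∀ z ∈ L, D j z
    · exact .of_forall fun n => iff_of_true (b n h) h
    · obtain ⟨z, z1, z2⟩ : ∃ z ∈ L, ¬ D j z := by simpa using h
      obtain ⟨t, ht⟩ : z ∈ Pos I := i1 ▸ z1
      exact (eventually_gt_atTop t).mono fun n hn => iff_of_false
        (fun b => z2 (b _ ((m _ _).2 ⟨t, hn, ht⟩) rfl)) h
  filter_upwards [e1, e2, eventually_gt_atTop (j0 + 1)] with n n1 n2 n3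
  have v : ∀ k ≤ j0 + 1, ∀ y, V D (seg I n) k y ↔ y ∈ U k := fun k hk y =>
    forall₂_congr fun j hj => by rw [n2 j (by omega)]
  have u : ∀ y, y ∈ U (j0 + 1) ↔ y ∈ L := fun y =>
    ⟨fun hy => (h0 y).1 (hy j0 (by omega) fun z => (h0 z).2), fun hy j _ h => h y hy⟩
  have : L = {x | Tst D (seg I n) x} := by
    ext x
    refine ⟨fun hx => ⟨j0 + 1, by simpa [seg] using n3, fun a ha e h => ?_,
      (v _ le_rfl _).2 ((u x).2 hx)⟩, fun ⟨k, _, h1, h2⟩ => ?_⟩
    · obtain ⟨t, -, ht⟩ := (m _ _).1 ha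
      exact i3 ⟨t, ht.trans e⟩ ((u _).1 ((v _ le_rfl _).1 h))
    · rcases le_total k (j0 + 1) with h | h
      · rcases s3 k with h' | ⟨y, y1, y2⟩
        · exact h' ((v k h x).1 h2)
        · exact (h1 _ (n1 y y1) rfl ((v k h y).2 y2)).elim
      · exact (u x).1 ((v _ le_rfl x).1 fun j hj => h2 j (by omega))
  rw [hW, this]
  exact lim _

end Pool.Agent.Results.MP_1b3940_lc.Q1
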